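import Pool.Agent.Helper45.CF.GoalsB

/-!
# Project CF (MP_d97caa_an), packet KAP: the rotated connecting maps
-/

open scoped ComplexOrder ZeroAtInfty Topology ComplexConjugate
open TopologicalSpace Filter

namespace Pool.Agent.Helper47.CF.KAP

open Pool.Agent.Helper34.CAR Pool.Agent.Helper39.CR Pool.Agent.Helper45.CF

noncomputable section

/-- A matrix valued function with continuous entries is continuous. -/
theorem continuous_of_entries {X I B : Type} [TopologicalSpace X] [Fintype I] [DecidableEq I]
    [CStarAlgebra B] (f : X → Mt I B) (h : ∀ i j, Continuous fun x => f x i j) :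
    Continuous f := by
  refine continuous_iff_continuousAt.2 fun x₀ => ?_
  refine tendsto_iff_norm_sub_tendsto_zero.2 ?_
  have h1 : Tendsto (fun x => ∑ i, ∑ j, ‖f x i j - f x₀ i j‖) (𝓝 x₀) (𝓝 0) := by
    have h2 : Continuous fun x => ∑ i, ∑ j, ‖f x i j - f x₀ i j‖ := by
      refine continuous_finsetSum _ fun i _ => continuous_finsetSum _ fun j _ => ?_
      exact ((h i j).sub continuous_const).norm
    have h3 := h2.tendsto x₀
    simpa using h3
  refine squeeze_zero (fun x => norm_nonneg _) (fun x => ?_) h1
  have h4 := Mt.norm_le_sum (f x - f x₀)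
  simpa using h4

variable {B : Type} [CStarAlgebra B] {θ : B →⋆ₐ[ℂ] B} (s : Sys B θ) (k : ℕ)

/-- The matrix with given blocks. -/
def bl (F : s.S k → s.S k → Mt (s.C k) B) : s.A (k + 1) :=
  Mt.of fun p q => F (s.e k p).1 (s.e k q).1 (s.e k p).2 (s.e k q).2

theorem bl_apply (F : s.S k → s.S k → Mt (s.C k) B) (p q : s.S (k + 1)) :
    bl s k F p q = F (s.e k p).1 (s.e k q).1 (s.e k p).2 (s.e k q).2 := rfl

theorem bl_mul (F G : s.S k → s.S k → Mt (s.C k) B) :
    bl s k F * bl s k G = bl s k fun x y => ∑ z, F x z * G z y := by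
  ext p q
  rw [Mt.mul_apply, bl_apply, Mt.sum_apply, ← (s.e k).symm.sum_comp, Fintype.sum_prod_type]
  refine Finset.sum_congr rfl fun z _ => ?_
  rw [Mt.mul_apply]
  refine Finset.sum_congr rfl fun c _ => ?_
  simp only [bl_apply, Equiv.apply_symm_apply]

theorem bl_star (F : s.S k → s.S k → Mt (s.C k) B) :
    star (bl s k F) = bl s k fun x y => star (F y x) := by
  ext p q
  rw [Mt.star_apply, bl_apply, bl_apply, Mt.star_apply]

/-- The matrix `1 ⊗ U`. -/
def big (U : Mt (s.C k) B) : s.A (k + 1) :=
  bl s k fun x y => if x = y then U else 0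

theorem big_mul (U V : Mt (s.C k) B) : big s k U * big s k V = big s k (U * V) := by
  unfold big
  rw [bl_mul]
  congr 1
  funext x y
  rw [Finset.sum_eq_single x]
  · rw [if_pos rfl]
    split_ifs
    · rfl
    · rw [mul_zero]
  · intro z _ hz
    rw [if_neg (Ne.symm hz), zero_mul]
  · intro h
    exact absurd (Finset.mem_univ x) h

theorem big_star (U : Mt (s.C k) B) : star (big s k U) = big s k (star U) := by
  unfold big
  rw [bl_star]
  congr 1
  funext x y
  by_cases h : x = y
  · rw [if_pos h, if_pos h.symm]
  · rw [if_neg h, if_neg (Ne.symm h), star_zero]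

theorem big_one : big s k 1 = 1 := by
  ext p q
  unfold big
  rw [bl_apply, Mt.one_apply]
  by_cases h1 : (s.e k p).1 = (s.e k q).1
  · rw [if_pos h1, Mt.one_apply]
    by_cases h2 : (s.e k p).2 = (s.e k q).2
    · rw [if_pos h2, if_pos ((s.e k).injective (Prod.ext h1 h2))]
    · rw [if_neg h2, if_neg fun h => h2 (by rw [h])]
  · rw [if_neg h1, Mt.zero_apply, if_neg fun h => h1 (by rw [h])]

theorem kap_eq (a : s.A k) : s.κ k a = bl s k fun x y => s.K k (a x y) := rfl

theorem conj_apply (U : Mt (s.C k) B) (a : s.A k) (p q : s.S (k + 1)) :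
    (big s k U * s.κ k a * star (big s k U)) p q =
      (U * s.K k (a (s.e k p).1 (s.e k q).1) * star U) (s.e k p).2 (s.e k q).2 := by
  have h1 : big s k U * s.κ k a = bl s k fun x y => U * s.K k (a x y) := by
    rw [kap_eq]
    unfold big
    rw [bl_mul]
    congr 1
    funext x y
    rw [Finset.sum_eq_single x]
    · rw [if_pos rfl]
    · intro z _ hz
      rw [if_neg (Ne.symm hz), zero_mul]
    · intro h
      exact absurd (Finset.mem_univ x) h
  have h2 : (bl s k fun x y => U * s.K k (a x y)) * big s k (star U) =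
      bl s k fun x y => U * s.K k (a x y) * star U := by
    unfold big
    rw [bl_mul]
    congr 1
    funext x y
    rw [Finset.sum_eq_single y]
    · rw [if_pos rfl]
    · intro z _ hz
      rw [if_neg hz, mul_zero]
    · intro h
      exact absurd (Finset.mem_univ y) h
  rw [big_star, h1, h2, bl_apply]

/-- The entries of the rotated step depend continuously on the point of the sphere. -/
theorem continuous_rotE (ω : B →⋆ₐ[ℂ] ℂ) {C : Type} [Fintype C] [DecidableEq C]
    (c1 c2 : C) (K : B →⋆ₐ[ℂ] Mt C B) (b : B) (x x' : C) :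
    Continuous fun y => rotE ω c1 c2 K y b x x' := by
  unfold rotE
  split_ifs
  · exact ((continuous_bp _ _).smul continuous_const).add
      ((continuous_const.sub (continuous_bp _ _)).smul continuous_const)
  · exact ((continuous_bp _ _).smul continuous_const).add
      ((continuous_const.sub (continuous_bp _ _)).smul continuous_const)
  · exact continuous_const

/-- KAP. -/
theorem t (hrot : S_ROT) : S_KAP := by
  intro B _ θ ω s c2 hom k
  obtain ⟨h01, _, _, _, hK1, hK2, _, _⟩ := s.step k
  have hU := hrot B ω (s.C k) (s.c0 k) (s.c1 k) (c2 k) (s.K k) hK1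
    (fun b x hx => ⟨hK2 b _ _ (Ne.symm hx) (Or.inr (Or.inl rfl)),
      hK2 b _ _ hx (Or.inr (Or.inr (Or.inr rfl)))⟩) (hom k)
  choose U hU1 hU2 hU3 using hU
  let κy : Sphere2 → s.A k → s.A (k + 1) := fun y a => Mt.of fun p q =>
    rotE ω (s.c1 k) (c2 k) (s.K k) y (a (s.e k p).1 (s.e k q).1) (s.e k p).2 (s.e k q).2
  have hV1 : ∀ y, star (big s k (U y)) * big s k (U y) = 1 := fun y => by
    rw [big_star, big_mul, hU1, big_one]
  have hV2 : ∀ y, big s k (U y) * star (big s k (U y)) = 1 := fun y => by
    rw [big_star, big_mul, hU2, big_one]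
  have hκ : ∀ y a, κy y a = big s k (U y) * s.κ k a * star (big s k (U y)) := by
    intro y a
    ext p q
    rw [conj_apply]
    exact hU3 y _ _ _
  have hc : ∀ a, Continuous fun y => κy y a := fun a =>
    continuous_of_entries _ fun p q => continuous_rotE ω _ _ _ _ _ _
  let κh : s.A k →⋆ₐ[ℂ] C(Sphere2, s.A (k + 1)) :=
    { toFun := fun a => ⟨fun y => κy y a, hc a⟩
      map_one' := by
        ext1 y
        show κy y 1 = 1
        rw [hκ, map_one, mul_one, hV2]
      map_mul' := fun a b => by
        ext1 y
        show κy y (a * b) = κy y a * κy y b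
        rw [hκ, hκ, hκ, map_mul]
        calc big s k (U y) * (s.κ k a * s.κ k b) * star (big s k (U y))
            = big s k (U y) * s.κ k a * 1 * (s.κ k b * star (big s k (U y))) := by
              rw [mul_one]; simp only [mul_assoc]
          _ = _ := by rw [← hV1 y]; simp only [mul_assoc]
      map_zero' := by
        ext1 y
        show κy y 0 = 0
        rw [hκ, map_zero, mul_zero, zero_mul]
      map_add' := fun a b => by
        ext1 y
        show κy y (a + b) = κy y a + κy y b
        rw [hκ, hκ, hκ, map_add, mul_add, add_mul]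
      commutes' := fun c => by
        ext1 y
        show κy y (algebraMap ℂ _ c) = algebraMap ℂ _ c
        rw [hκ, AlgHomClass.commutes, ← Algebra.commutes, mul_assoc, hV2, mul_one]
      map_star' := fun a => by
        ext1 y
        show κy y (star a) = star (κy y a)
        rw [hκ, hκ, map_star, star_mul, star_mul, star_star, mul_assoc] }
  refine ⟨κh, fun a y p q => rfl, fun y => ⟨big s k (U y), hV1 y, hV2 y, fun a => hκ y a⟩⟩

end

end Pool.Agent.Helper47.CF.KAP
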